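import Mathlib
import Pool.Agent.H17.Dom2

set_option autoImplicit false

namespace Pool.Agent.Results.MP_073e7c_an.Exists

/-- the letter (i, true) stands for e_i and the letter (i, false) for minus e_i -/
def vec {d : ℕ} (a : Fin d × Bool) : Fin d → ℤ := Pi.single a.1 (if a.2 then 1 else -1)

/-- the opposite letter -/
def opp {d : ℕ} (a : Fin d × Bool) : Fin d × Bool := (a.1, !a.2)

/-- the space X_d of domino tilings -/
def Tilings (d : ℕ) : Set ((Fin d → ℤ) → Fin d × Bool) :=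
  {x | ∀ v, x (v + vec (x v)) = opp (x v)}

/-- closed and shift invariant -/
def IsSubshift {d : ℕ} (X : Set ((Fin d → ℤ) → Fin d × Bool)) : Prop :=
  IsClosed X ∧ ∀ u : Fin d → ℤ, ∀ x ∈ X, (fun v => x (u + v)) ∈ X

/-- strong irreducibility, with the sup norm distance on Z^d -/
def StronglyIrreducible {d : ℕ} (X : Set ((Fin d → ℤ) → Fin d × Bool)) : Prop :=
  ∃ k : ℕ, ∀ x ∈ X, ∀ y ∈ X, ∀ A B : Set (Fin d → ℤ),
    (∀ a ∈ A, ∀ b ∈ B, (k : ℝ) ≤ dist a b) →
      ∃ z ∈ X, (∀ a ∈ A, z a = x a) ∧ ∀ b ∈ B, z b = y b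

open Pool.Agent.H17.Dom

def hd {n : ℕ} (v : Fin (n + 3) → ℤ) : P3 := (v 0, v 1, v 2)

def tl {n : ℕ} (v : Fin (n + 3) → ℤ) : Fin n → ℤ := fun i => v i.succ.succ.succ

def emb {n : ℕ} (a : Dir) : Fin (n + 3) × Bool :=
  (if a.1 = 0 then 0 else if a.1 = 1 then (0 : Fin (n + 2)).succ else (0 : Fin (n + 1)).succ.succ, a.2)

lemma hd_add {n : ℕ} (u v : Fin (n + 3) → ℤ) : hd (u + v) = hd u + hd v := rfl
lemma tl_add {n : ℕ} (u v : Fin (n + 3) → ℤ) : tl (u + v) = tl u + tl v := rfl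

lemma tl_vec {n : ℕ} (a : Dir) : tl (vec (emb (n := n) a)) = 0 := by
  funext i
  obtain ⟨ax, sg⟩ := a
  simp only [tl, vec, emb, Pi.zero_apply]
  apply Pi.single_eq_of_ne
  have h2 : 2 % (n + 1 + 1 + 1) = 2 := Nat.mod_eq_of_lt (by omega)
  fin_cases ax <;> simp [Fin.ext_iff, h2]

lemma hd_vec {n : ℕ} (a : Dir) : hd (vec (emb (n := n) a)) = vec3 a := by
  obtain ⟨ax, sg⟩ := a
  have h2 : 2 % (n + 3) = 2 := Nat.mod_eq_of_lt (by omega)
  fin_cases ax <;> simp [hd, vec, emb, vec3, Pi.single_apply, Fin.ext_iff, h2]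

def X0 (n : ℕ) : Set ((Fin (n + 3) → ℤ) → Fin (n + 3) × Bool) :=
  {x | ∃ y : (Fin n → ℤ) → P3 → Dir, (∀ r, y r ∈ X3) ∧ ∀ v, x v = emb (y (tl v) (hd v))}

lemma X0_sub (n : ℕ) : X0 n ⊆ Tilings (n + 3) := by
  rintro x ⟨y, h1, h2⟩ v
  rw [h2 (v + _), h2 v, hd_add, tl_add, tl_vec, hd_vec, add_zero, X3_valid (h1 _)]
  rfl

lemma closed_tilings (d : ℕ) : IsClosed (Tilings d) := by
  have : Tilings d = ⋂ v, ⋂ a : Fin d × Bool, {x | x v = a}ᶜ ∪ {x | x (v + vec a) = opp a} := by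
    ext x
    simp only [Tilings, Set.mem_setOf_eq, Set.mem_iInter, Set.mem_union, Set.mem_compl_iff]
    constructor
    · intro h v a
      by_cases g : x v = a
      · right; rw [← g]; exact h v
      · left; exact g
    · intro h v
      exact (h v (x v)).resolve_left (fun g => g rfl)
  rw [this]
  refine isClosed_iInter (fun v => isClosed_iInter (fun a => IsClosed.union ?_ ?_))
  · have c : Continuous (fun x : (Fin d → ℤ) → Fin d × Bool => x v) := continuous_apply v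
    exact ((isOpen_discrete {a}).preimage c).isClosed_compl
  · have c : Continuous (fun x : (Fin d → ℤ) → Fin d × Bool => x (v + vec a)) := continuous_apply _
    exact (isClosed_discrete {opp a}).preimage c

lemma X0_glue (n : ℕ) : ∀ x ∈ X0 n, ∀ y ∈ X0 n, ∀ A B : Set (Fin (n + 3) → ℤ),
    (∀ a ∈ A, ∀ b ∈ B, ((601 : ℕ) : ℝ) ≤ dist a b) →
      ∃ z ∈ X0 n, (∀ a ∈ A, z a = x a) ∧ ∀ b ∈ B, z b = y b := by
  rintro x ⟨x', x1, x2⟩ y ⟨y', y1, y2⟩ A B hAB
  have key : ∀ r, ∃ z ∈ X3, (∀ a ∈ hd '' {a ∈ A | tl a = r}, z a = x' r a) ∧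
      ∀ b ∈ hd '' {b ∈ B | tl b = r}, z b = y' r b := by
    intro r
    apply X3_glue (x1 r) (y1 r)
    rintro _ ⟨a, ⟨ha, ea⟩, rfl⟩ _ ⟨b, ⟨hb, eb⟩, rfl⟩ g
    have : dist a b ≤ 600 := by
      rw [dist_pi_le_iff (by norm_num)]
      intro i
      rw [Int.dist_eq, abs_le]
      have : -600 ≤ a i - b i ∧ a i - b i ≤ 600 := by
        unfold near hd at g
        simp only at g
        refine Fin.cases ?_ (fun i => Fin.cases ?_ (fun i => Fin.cases ?_ (fun i => ?_) i) i) i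
        · omega
        · have e : (0 : Fin (n + 2)).succ = (1 : Fin (n + 3)) := rfl
          rw [e]; omega
        · have e : (0 : Fin (n + 1)).succ.succ = (2 : Fin (n + 3)) := rfl
          rw [e]; omega
        · have := congrFun (ea.trans eb.symm) i
          simp only [tl] at this
          omega
      exact_mod_cast this
    have := hAB a ha b hb
    norm_num at this
    linarith
  choose z z1 z2 z3 using key
  refine ⟨fun v => emb (z (tl v) (hd v)), ⟨z, z1, fun v => rfl⟩, fun a ha => ?_, fun b hb => ?_⟩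
  · rw [x2, ← z2 (tl a) (hd a) ⟨a, ⟨ha, rfl⟩, rfl⟩]
  · rw [y2, ← z3 (tl b) (hd b) ⟨b, ⟨hb, rfl⟩, rfl⟩]

theorem result (d : ℕ) (hd3 : 3 ≤ d) : ∃ X : Set ((Fin d → ℤ) → Fin d × Bool),
    X.Nonempty ∧ X ⊆ Tilings d ∧ IsSubshift X ∧ StronglyIrreducible X := by
  obtain ⟨n, rfl⟩ : ∃ n, d = n + 3 := ⟨d - 3, by omega⟩
  refine ⟨closure (X0 n), ?_, closure_minimal (X0_sub n) (closed_tilings _), ⟨isClosed_closure, ?_⟩,
    601, ?_⟩
  · obtain ⟨y, hy⟩ := X3_ne
    exact ⟨fun v => emb (y (hd v)), subset_closure ⟨fun _ => y, fun _ => hy, fun _ => rfl⟩⟩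
  · intro u x hx
    refine map_mem_closure (f := fun x v => x (u + v)) (by fun_prop) hx ?_
    rintro x ⟨y, h1, h2⟩
    exact ⟨fun r w => y (tl u + r) (hd u + w), fun r => X3_shift (h1 _) _, fun v => h2 _⟩
  · intro x hx y hy A B hAB
    let R : Set ((((Fin (n + 3) → ℤ) → Fin (n + 3) × Bool) × ((Fin (n + 3) → ℤ) → Fin (n + 3) × Bool)) ×
        ((Fin (n + 3) → ℤ) → Fin (n + 3) × Bool)) :=
      {p | p.2 ∈ closure (X0 n)} ∩ ((⋂ a ∈ A, {p | p.2 a = p.1.1 a}) ∩ ⋂ b ∈ B, {p | p.2 b = p.1.2 b})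
    have hR : IsClosed R := by
      refine (isClosed_closure.preimage continuous_snd).inter (IsClosed.inter ?_ ?_)
      · exact isClosed_biInter (fun a _ => isClosed_eq (by fun_prop) (by fun_prop))
      · exact isClosed_biInter (fun a _ => isClosed_eq (by fun_prop) (by fun_prop))
    have hP : IsClosed (Prod.fst '' R) := (hR.isCompact.image continuous_fst).isClosed
    have sub : X0 n ×ˢ X0 n ⊆ Prod.fst '' R := by
      rintro ⟨x, y⟩ ⟨hx, hy⟩
      obtain ⟨z, z1, z2, z3⟩ := X0_glue n x hx y hy A B hAB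
      refine ⟨((x, y), z), ⟨subset_closure z1, ?_, ?_⟩, rfl⟩
      · simpa using z2
      · simpa using z3
    have := closure_minimal sub hP (show (x, y) ∈ closure (X0 n ×ˢ X0 n) by
      rw [closure_prod_eq]; exact ⟨hx, hy⟩)
    obtain ⟨⟨_, z⟩, ⟨z1, z2, z3⟩, rfl⟩ := this
    exact ⟨z, z1, by simpa using z2, by simpa using z3⟩

end Pool.Agent.Results.MP_073e7c_an.Exists
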